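import Pool.Agent.BoltzM.Dich.Hilbert

/-!
The dichotomy for a real vector space with a positive semidefinite symmetric form.
-/

namespace Pool.Agent.BoltzM.BoltzC.Dich

variable [Dim]

open Module Filter Topology
open scoped RealInnerProductSpace

theorem dense_dich {H : Type*} [NormedAddCommGroup H] [InnerProductSpace ℝ H] [CompleteSpace H]
    {D : Type*} [AddCommGroup D] [Module ℝ D] (ι : D →ₗ[ℝ] H) (hι : DenseRange ι)
    {κ : Type*} [Fintype κ] (S : H →L[ℝ] H) (SD : D →ₗ[ℝ] D) (hSD : ∀ x, ι (SD x) = S (ι x))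
    (r : κ → H) (q0 q1 : ℝ) (hq0 : 0 ≤ q0) (hq : q0 < q1)
    (hS : ∀ x, ‖S x‖ ^ 2 ≤ q0 ^ 2 * ‖x‖ ^ 2 + ∑ k, ⟪r k, x⟫ ^ 2) :
    ∃ q2, q1 < q2 ∧ ∀ q, q1 < q → q < q2 →
      ∃ (n : ℕ) (ψ : Fin n → D) (a : (ℕ → D) →ₗ[ℝ] (Fin n → ℝ)) (C : ℝ), 0 ≤ C ∧
        ∀ (f : ℕ → D) (M : ℝ), (∀ j, ‖ι (f j)‖ ≤ M * q ^ j) →
          (∀ i, |a f i| ≤ C * M) ∧
          ∀ j, ‖ι (orb SD (∑ i, a f i • ψ i) f j)‖ ≤ C * M * q ^ j := by
  obtain ⟨q2, hq2, U, hfin, hU⟩ := hilbert_dich S r q0 q1 hq0 hq hS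
  refine ⟨q2, hq2, fun q h1 h2 => ?_⟩
  obtain ⟨huniq, C, hC0, hex⟩ := hU q h1 h2
  set Sl := (S : H →ₗ[ℝ] H) with hSl
  have hqpos : 0 < q := (lt_of_le_of_lt hq0 hq).trans h1
  -- uniqueness for forced orbits
  have huniq2 : ∀ (x : H) (f : ℕ → H) (u v : U), orb Sl (x + u) f ∈ Dec H q →
      orb Sl (x + v) f ∈ Dec H q → u = v := by
    intro x f u v hu hv
    have h3 : (fun j => (Sl ^ j) ((u : H) - v)) = orb Sl (x + u) f - orb Sl (x + v) f := by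
      ext j
      have h4 := orb_add Sl (x + v) ((u : H) - v) f 0 j
      rw [orb_free, add_zero] at h4
      have h5 : x + (v : H) + ((u : H) - v) = x + u := by abel
      rw [h5] at h4
      simp [h4]
    have h6 := huniq ((u : H) - v) (U.sub_mem u.2 v.2) (h3 ▸ (Dec H q).sub_mem hu hv)
    exact Subtype.ext (sub_eq_zero.mp h6)
  have hex2 : ∀ p : H × Dec H q, ∃ u : U, orb Sl (p.1 + u) p.2 ∈ Dec H q := by
    rintro ⟨x, f, M, hM⟩
    obtain ⟨u, hu, hb⟩ := hex x f (max M ‖x‖) (le_max_right _ _) fun j =>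
      (hM j).trans (by gcongr; exact le_max_left _ _)
    exact ⟨⟨u, hu⟩, _, hb⟩
  choose Z0 hZ0 using hex2
  let Z : (H × Dec H q) →ₗ[ℝ] U :=
    { toFun := Z0
      map_add' := fun p p' => by
        refine huniq2 (p + p').1 (p + p').2 _ _ (hZ0 _) ?_
        have h3 := (Dec H q).add_mem (hZ0 p) (hZ0 p')
        convert h3 using 1
        ext j
        rw [Pi.add_apply, ← orb_add]
        congr 1
        simp only [Prod.fst_add, Submodule.coe_add]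
        abel
      map_smul' := fun c p => by
        refine huniq2 (c • p).1 (c • p).2 _ _ (hZ0 _) ?_
        have h3 := (Dec H q).smul_mem c (hZ0 p)
        convert h3 using 1
        ext j
        rw [Pi.smul_apply, ← orb_smul]
        congr 1
        simp [smul_add] }
  have hZ : ∀ (x : H) (f : Dec H q) (M : ℝ), ‖x‖ ≤ M → (∀ j, ‖(f : ℕ → H) j‖ ≤ M * q ^ j) →
      ∀ j, ‖orb Sl (x + Z (x, f)) f j‖ ≤ C * M * q ^ j := by
    intro x f M hx hf
    obtain ⟨u, hu, hb⟩ := hex x f M hx hf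
    have : Z (x, f) = ⟨u, hu⟩ := huniq2 x f _ _ (hZ0 (x, f)) ⟨_, hb⟩
    rw [this]
    exact hb
  -- the projection onto `U`
  let Pr : H →ₗ[ℝ] U := -(Z ∘ₗ LinearMap.inl ℝ H (Dec H q))
  have hPr : ∀ x, Pr x = -Z (x, 0) := fun x => rfl
  have hPrU : ∀ u : U, Pr u = u := by
    intro u
    have : Z ((u : H), 0) = -u := by
      refine huniq2 u 0 _ _ (hZ0 ((u : H), 0)) ⟨0, fun j => ?_⟩
      simp [orb_free]
    rw [hPr, this, neg_neg]
  have hPrb : ∀ x, ‖Pr x‖ ≤ (C + 1) * ‖x‖ := by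
    intro x
    have h3 := hZ x 0 ‖x‖ le_rfl (fun j => by simp; positivity) 0
    simp only [orb_zero, pow_zero, mul_one] at h3
    have h4 : ‖Pr x‖ = ‖x - (x + (Z (x, 0) : H))‖ := by
      rw [hPr, norm_neg]; simp
    have h5 := norm_sub_le x (x + (Z (x, 0) : H))
    linarith
  have hPrc : Continuous Pr := AddMonoidHomClass.continuous_of_bound Pr _ hPrb
  have hsurj : LinearMap.range (Pr ∘ₗ ι) = ⊤ := by
    have hcl : IsClosed (LinearMap.range (Pr ∘ₗ ι) : Set U) :=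
      Submodule.closed_of_finiteDimensional _
    rw [eq_top_iff]
    intro u _
    have h3 : ∀ x : H, Pr x ∈ (LinearMap.range (Pr ∘ₗ ι) : Set U) := fun x =>
      hι.induction_on (p := fun x => Pr x ∈ (LinearMap.range (Pr ∘ₗ ι) : Set U)) x
        (hcl.preimage hPrc) fun d => ⟨d, rfl⟩
    have := h3 u
    rwa [hPrU] at this
  obtain ⟨σ, hσ⟩ := LinearMap.exists_rightInverse_of_surjective (Pr ∘ₗ ι) hsurj
  have hσ' : ∀ u, Pr (ι (σ u)) = u := fun u => LinearMap.congr_fun hσ u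
  let b := Module.finBasis ℝ U
  let ιs : (ℕ → D) →ₗ[ℝ] (ℕ → H) := ι.compLeft ℕ
  let DD : Submodule ℝ (ℕ → D) := (Dec H q).comap ιs
  let toDec : DD →ₗ[ℝ] Dec H q := ιs.restrict fun _ h => h
  let z : DD →ₗ[ℝ] U := Z ∘ₗ LinearMap.inr ℝ H (Dec H q) ∘ₗ toDec
  obtain ⟨a, ha⟩ := LinearMap.exists_extend (b.equivFun.toLinearMap ∘ₗ z)
  set A := LinearMap.toContinuousLinearMap b.equivFun.toLinearMap
  set B := LinearMap.toContinuousLinearMap (ι ∘ₗ σ)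
  refine ⟨_, fun i => σ (b i), a, ‖A‖ * C + (C + C * (‖B‖ * C)), by positivity,
    fun f M hf => ?_⟩
  have hM : 0 ≤ M := by simpa using (norm_nonneg _).trans (hf 0)
  have hfD : f ∈ DD := ⟨M, hf⟩
  set u := z ⟨f, hfD⟩ with hu
  have haf : a f = b.equivFun u := LinearMap.congr_fun ha ⟨f, hfD⟩
  have horb := hZ 0 (toDec ⟨f, hfD⟩) M (by simpa using hM) hf
  have hu' : Z (0, toDec ⟨f, hfD⟩) = u := rfl
  rw [hu', zero_add] at horb
  have hub : ‖u‖ ≤ C * M := by simpa using horb 0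
  refine ⟨fun i => ?_, fun j => ?_⟩
  · have h3 : |a f i| ≤ ‖a f‖ := by
      rw [← Real.norm_eq_abs]; exact norm_le_pi_norm _ i
    have h4 : ‖a f‖ ≤ ‖A‖ * ‖u‖ := by rw [haf]; exact A.le_opNorm u
    have h5 : ‖A‖ * ‖u‖ ≤ ‖A‖ * (C * M) := by gcongr
    have h6 : 0 ≤ (C + C * (‖B‖ * C)) * M := by positivity
    nlinarith
  · have hx0 : ∑ i, a f i • σ (b i) = σ u := by
      rw [haf]
      conv_rhs => rw [← b.sum_equivFun u]
      simp only [map_sum, map_smul]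
    have hι' : ∀ x j, ι (orb SD x f j) = orb Sl (ι x) (ιs f) j := by
      intro x j
      induction j with
      | zero => rfl
      | succ j ih => rw [orb_succ, orb_succ, map_add, hSD, ih]; rfl
    rw [hx0, hι']
    set w := ι (σ u) with hw
    have hwb : ‖w‖ ≤ ‖B‖ * C * M := by
      have h3 : ‖w‖ ≤ ‖B‖ * ‖u‖ := B.le_opNorm u
      have h4 : ‖B‖ * ‖u‖ ≤ ‖B‖ * (C * M) := by gcongr
      linarith
    have hfree := hZ w 0 _ hwb (fun j => by simp; positivity) j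
    have hZw : Z (w, 0) = -u := by
      have := hσ' u
      rw [hPr] at this
      rw [← this, neg_neg]
    rw [hZw] at hfree
    have hsplit := orb_add Sl (u : H) (w + ((-u : U) : H)) (ιs f) 0 j
    have e : (u : H) + (w + ((-u : U) : H)) = w := by simp
    rw [e, add_zero] at hsplit
    rw [hsplit]
    have h3 := norm_add_le (orb Sl (u : H) (ιs f) j) (orb Sl (w + ((-u : U) : H)) 0 j)
    have h4 : ‖orb Sl (u : H) (ιs f) j‖ ≤ C * M * q ^ j := horb j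
    have h5 : ‖orb Sl (w + ((-u : U) : H)) 0 j‖ ≤ C * (‖B‖ * C * M) * q ^ j := hfree
    have h6 : 0 ≤ ‖A‖ * C * M * q ^ j := by positivity
    nlinarith

/-- A vector space with a semidefinite form maps densely and isometrically to a Hilbert space. -/
theorem exists_completion {D : Type} [AddCommGroup D] [Module ℝ D] (B : D →ₗ[ℝ] D →ₗ[ℝ] ℝ)
    (hsym : ∀ x y, B x y = B y x) (hpos : ∀ x, 0 ≤ B x x) :
    ∃ (H : Type) (_ : NormedAddCommGroup H) (_ : InnerProductSpace ℝ H) (_ : CompleteSpace H)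
      (ι : D →ₗ[ℝ] H), DenseRange ι ∧ (∀ x y, ⟪ι x, ι y⟫ = B x y) ∧
      (∀ (l : D →ₗ[ℝ] ℝ) (K : ℝ), (∀ x, l x ^ 2 ≤ K * B x x) → ∃ r : H, ∀ x, ⟪r, ι x⟫ = l x) ∧
      (∀ (S : D →ₗ[ℝ] D) (K : ℝ), (∀ x, B (S x) (S x) ≤ K * B x x) →
        ∃ T : H →L[ℝ] H, ∀ x, ι (S x) = T (ι x)) := by
  let c : PreInnerProductSpace.Core ℝ D :=
    { inner := fun x y => B x y
      conj_inner_symm := fun x y => by simp [hsym x y]
      re_inner_nonneg := fun x => by simpa using hpos x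
      add_left := fun x y z => by simp
      smul_left := fun x y r => by simp }
  let _ : SeminormedAddCommGroup D := InnerProductSpace.Core.toSeminormedAddCommGroup (𝕜 := ℝ) (c := c)
  let _ : InnerProductSpace ℝ D := InnerProductSpace.ofCore c
  have hB : ∀ x y : D, ⟪x, y⟫ = B x y := fun _ _ => rfl
  have hn : ∀ x : D, ‖x‖ ^ 2 = B x x := fun x => by rw [← hB, real_inner_self_eq_norm_sq]
  let ι : D →L[ℝ] UniformSpace.Completion D := UniformSpace.Completion.toComplL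
  have hd : DenseRange ι := UniformSpace.Completion.denseRange_coe
  have hu : IsUniformInducing ι := UniformSpace.Completion.isUniformInducing_coe D
  have hsq : ∀ (s t K : ℝ), 0 ≤ t → s ^ 2 ≤ K * t ^ 2 → |s| ≤ √(max K 0) * t := by
    intro s t K ht h
    have h1 : s ^ 2 ≤ (√(max K 0) * t) ^ 2 := by
      rw [mul_pow, Real.sq_sqrt (le_max_right _ _)]
      exact h.trans (by gcongr; exact le_max_left _ _)
    exact abs_le_of_sq_le_sq' h1 (by positivity) |> abs_le.mpr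
  refine ⟨UniformSpace.Completion D, inferInstance, inferInstance, inferInstance, ι, hd,
    fun x y => ?_, fun l K hl => ?_, fun S K hS => ?_⟩
  · exact (UniformSpace.Completion.inner_coe x y).trans (hB x y)
  · let lc : D →L[ℝ] ℝ := l.mkContinuous (√(max K 0)) fun x =>
      hsq _ _ K (norm_nonneg x) (by rw [hn]; exact hl x)
    refine ⟨(InnerProductSpace.toDual ℝ _).symm (lc.extend ι), fun x => ?_⟩
    rw [InnerProductSpace.toDual_symm_apply]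
    exact lc.extend_eq hd hu x
  · let Sc : D →L[ℝ] D := S.mkContinuous (√(max K 0)) fun x => by
      have := hsq ‖S x‖ _ K (norm_nonneg x) (by rw [hn, hn]; exact hS x)
      rwa [abs_norm] at this
    exact ⟨(ι.comp Sc).extend ι, fun x => ((ι.comp Sc).extend_eq hd hu x).symm⟩

/-- **Dichotomy.** -/
theorem dichotomy {D : Type} [AddCommGroup D] [Module ℝ D] (B : D →ₗ[ℝ] D →ₗ[ℝ] ℝ)
    (hsym : ∀ x y, B x y = B y x) (hpos : ∀ x, 0 ≤ B x x) (S : D →ₗ[ℝ] D)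
    {κ : Type*} [Fintype κ] (l : κ → D →ₗ[ℝ] ℝ) (K : ℝ) (hl : ∀ k x, l k x ^ 2 ≤ K * B x x)
    (q0 q1 : ℝ) (hq0 : 0 ≤ q0) (hq : q0 < q1)
    (hS : ∀ x, B (S x) (S x) ≤ q0 ^ 2 * B x x + ∑ k, l k x ^ 2) :
    ∃ q2, q1 < q2 ∧ ∀ q, q1 < q → q < q2 →
      ∃ (n : ℕ) (ψ : Fin n → D) (a : (ℕ → D) →ₗ[ℝ] (Fin n → ℝ)) (C : ℝ), 0 ≤ C ∧
        ∀ (f : ℕ → D) (M : ℝ), 0 ≤ M → (∀ j, B (f j) (f j) ≤ (M * q ^ j) ^ 2) →
          (∀ i, |a f i| ≤ C * M) ∧
          ∀ x : ℕ → D, x 0 = ∑ i, a f i • ψ i → (∀ j, x (j + 1) = S (x j) + f j) →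
            ∀ j, B (x j) (x j) ≤ (C * M * q ^ j) ^ 2 := by
  obtain ⟨H, _, _, _, ι, hd, hB, hfun, hop⟩ := exists_completion B hsym hpos
  have hn : ∀ x, ‖ι x‖ ^ 2 = B x x := fun x => by rw [← hB, real_inner_self_eq_norm_sq]
  choose r hr using fun k => hfun (l k) K (hl k)
  obtain ⟨T, hT⟩ := hop S (q0 ^ 2 + Fintype.card κ * K) fun x => by
    have h1 : ∑ k, l k x ^ 2 ≤ ∑ _k : κ, K * B x x := Finset.sum_le_sum fun k _ => hl k x
    simp only [Finset.sum_const, Finset.card_univ, nsmul_eq_mul] at h1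
    have := hS x
    nlinarith
  have hTi : ∀ x, ‖T x‖ ^ 2 ≤ q0 ^ 2 * ‖x‖ ^ 2 + ∑ k, ⟪r k, x⟫ ^ 2 := fun x =>
    hd.induction_on (p := fun x => ‖T x‖ ^ 2 ≤ q0 ^ 2 * ‖x‖ ^ 2 + ∑ k, ⟪r k, x⟫ ^ 2) x
      (isClosed_le (by fun_prop) (by fun_prop)) fun d => by
        simp only [← hT, hn, hr]
        exact hS d
  obtain ⟨q2, hq2, h⟩ := dense_dich ι hd T S hT r q0 q1 hq0 hq hTi
  refine ⟨q2, hq2, fun q h1 h2 => ?_⟩
  obtain ⟨n, ψ, a, C, hC, hmain⟩ := h q h1 h2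
  have hqpos : 0 < q := (lt_of_le_of_lt hq0 hq).trans h1
  refine ⟨n, ψ, a, C, hC, fun f M hM hf => ?_⟩
  obtain ⟨h3, h4⟩ := hmain f M fun j =>
    (abs_le_of_sq_le_sq' (by rw [hn]; exact hf j) (by positivity)).2
  refine ⟨h3, fun x hx0 hx j => ?_⟩
  rw [eq_orb S x f hx j, hx0, ← hn]
  exact pow_le_pow_left₀ (norm_nonneg _) (h4 j) 2

/-- A bounded functional is almost represented by a vector of the space. -/
theorem riesz_approx {D : Type} [AddCommGroup D] [Module ℝ D] (B : D →ₗ[ℝ] D →ₗ[ℝ] ℝ)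
    (hsym : ∀ x y, B x y = B y x) (hpos : ∀ x, 0 ≤ B x x) (l : D →ₗ[ℝ] ℝ) (K : ℝ)
    (hl : ∀ x, l x ^ 2 ≤ K * B x x) (ε : ℝ) (hε : 0 < ε) :
    ∃ φ : D, ∀ x, (l x - B φ x) ^ 2 ≤ ε * B x x := by
  obtain ⟨H, _, _, _, ι, hd, hB, hfun, -⟩ := exists_completion B hsym hpos
  obtain ⟨r, hr⟩ := hfun l K hl
  obtain ⟨φ, hφ⟩ := hd.exists_dist_lt r (Real.sqrt_pos.mpr hε)
  refine ⟨φ, fun x => ?_⟩
  rw [← hr, ← hB, ← hB, ← inner_sub_left, real_inner_self_eq_norm_sq, ← sq_abs]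
  rw [dist_eq_norm] at hφ
  have h1 := abs_real_inner_le_norm (r - ι φ) (ι x)
  have h2 : ‖r - ι φ‖ * ‖ι x‖ ≤ √ε * ‖ι x‖ := by gcongr
  calc |⟪r - ι φ, ι x⟫| ^ 2 ≤ (√ε * ‖ι x‖) ^ 2 := by gcongr; exact h1.trans h2
    _ = _ := by rw [mul_pow, Real.sq_sqrt hε.le]

end Pool.Agent.BoltzM.BoltzC.Dich
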